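import Mathlib

set_option autoImplicit false

namespace Pool.Agent.H.MP_5090e2_pr

open Set Filter Topology MeasureTheory MeasurableSpace
open scoped ENNReal NNReal

noncomputable section

/-- sequences of points -/
def Ul (Ω : ℕ → Type) : Type := ∀ n, Ω n

variable {Ω : ℕ → Type} [∀ n, MeasurableSpace (Ω n)]

/-- the internal set of a sequence of sets -/
def br (A : ∀ n, Set (Ω n)) : Set (Ul Ω) := {ω | ∀ᶠ n in hyperfilter ℕ, ω n ∈ A n}

/-- internal sets -/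
def Int (Ω : ℕ → Type) [∀ n, MeasurableSpace (Ω n)] : Set (Set (Ul Ω)) :=
  {s | ∃ A, (∀ n, MeasurableSet (A n)) ∧ br A = s}

instance : MeasurableSpace (Ul Ω) := generateFrom (Int Ω)

theorem mbr {A : ∀ n, Set (Ω n)} (h : ∀ n, MeasurableSet (A n)) : MeasurableSet (br A) :=
  measurableSet_generateFrom ⟨A, h, rfl⟩

omit [∀ n, MeasurableSpace (Ω n)] in
theorem br_union (A B : ∀ n, Set (Ω n)) : br (fun n => A n ∪ B n) = br A ∪ br B :=
  Set.ext fun _ => Ultrafilter.eventually_or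

omit [∀ n, MeasurableSpace (Ω n)] in
theorem br_inter (A B : ∀ n, Set (Ω n)) : br (fun n => A n ∩ B n) = br A ∩ br B := Set.ext fun _ => eventually_and

omit [∀ n, MeasurableSpace (Ω n)] in
theorem br_diff (A B : ∀ n, Set (Ω n)) : br (fun n => A n \ B n) = br A \ br B :=
  Set.ext fun _ => eventually_and.trans (and_congr_right' Ultrafilter.eventually_not)

omit [∀ n, MeasurableSpace (Ω n)] in
theorem br_univ : br (fun n => (univ : Set (Ω n))) = univ := eq_univ_of_forall fun _ => .of_forall fun _ => trivial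

omit [∀ n, MeasurableSpace (Ω n)] in
theorem br_nil : br (fun n => (∅ : Set (Ω n))) = ∅ := eq_empty_of_forall_notMem fun _ h => h.exists.elim fun _ h => h

theorem ring : IsSetRing (Int Ω) :=
  ⟨⟨fun _ => ∅, fun _ => .empty, br_nil⟩,
    fun _ _ ⟨A, a, b⟩ ⟨B, c, d⟩ => ⟨_, fun n => (a n).union (c n), b ▸ d ▸ br_union A B⟩,
    fun _ _ ⟨A, a, b⟩ ⟨B, c, d⟩ => ⟨_, fun n => (a n).diff (c n), b ▸ d ▸ br_diff A B⟩⟩

omit [∀ n, MeasurableSpace (Ω n)] in
theorem br_empty [∀ n, Nonempty (Ω n)] {A : ∀ n, Set (Ω n)} (h : br A = ∅) : ∀ᶠ n in hyperfilter ℕ, A n = ∅ := by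
  by_contra c
  exact h.subset (show (fun n => Classical.epsilon (· ∈ A n)) ∈ br A from (Ultrafilter.eventually_not.2 c).mono
    fun n k => Classical.epsilon_spec (nonempty_iff_ne_empty.2 k))

theorem tend (a : ℕ → ℝ≥0∞) : Tendsto a (hyperfilter ℕ) (𝓝 ((hyperfilter ℕ).map a).lim) :=
  Ultrafilter.le_nhds_lim _

variable [∀ n, Nonempty (Ω n)]

theorem ex (μ : ∀ n, Measure (Ω n)) [∀ n, IsProbabilityMeasure (μ n)] : ∃ L : Measure (Ul Ω), IsProbabilityMeasure L ∧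
    ∀ A, (∀ n, MeasurableSet (A n)) → Tendsto (fun n => μ n (A n)) (hyperfilter ℕ) (𝓝 (L (br A))) := by
  obtain ⟨m, hm⟩ : ∃ m : Set (Ul Ω) → ℝ≥0∞, ∀ A, Tendsto (fun n => μ n (A n)) (hyperfilter ℕ) (𝓝 (m (br A))) := by
    refine ⟨fun s => ((hyperfilter ℕ).map fun n => μ n (Classical.epsilon (br · = s) n)).lim,
      fun A => (tend _).congr' ?_⟩
    have e := Classical.epsilon_spec (p := (br · = br A)) ⟨A, rfl⟩
    filter_upwards [br_empty ((br_diff _ A).trans (by rw [e, sdiff_self])),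
      br_empty ((br_diff A _).trans (by rw [e, sdiff_self]))] with n a b
    rw [(sdiff_eq_empty.1 a).antisymm (sdiff_eq_empty.1 b)]
  have z : ∀ A, br A = ∅ → m (br A) = 0 := fun A h =>
    tendsto_nhds_unique (hm A) (tendsto_const_nhds.congr' ((br_empty h).mono fun n k => by simp [k]))
  let c := ring.addContent_of_union m (br_nil (Ω := Ω) ▸ z _ br_nil) (by
    rintro _ _ ⟨A, a, rfl⟩ ⟨B, b, rfl⟩ d
    refine br_union A B ▸ tendsto_nhds_unique (hm _) (((hm A).add (hm B)).congr' ?_)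
    filter_upwards [br_empty ((br_inter A B).trans d.inter_eq)] with n k
    rw [measure_union (disjoint_iff_inter_eq_empty.2 k) (b n)])
  have s : c.IsSigmaSubadditive := isSigmaSubadditive_of_addContent_iUnion_eq_tsum ring fun f =>
    addContent_iUnion_eq_sum_of_tendsto_zero ring c (by
      rintro _ ⟨A, -, rfl⟩
      exact ((le_of_tendsto' (hm A) fun _ => prob_le_one).trans_lt ENNReal.one_lt_top).ne) (fun s hs a e => by
        choose A _ hA using hs
        obtain ⟨k, hk⟩ : ∃ k, s k = ∅ := by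
          by_contra! c
          classical
          let P : ℕ → ℕ → Prop := fun n k => ∃ x, ∀ j ≤ k, x ∈ A j n
          refine e.subset (show (fun n => Classical.epsilon fun x => ∀ j ≤ Nat.findGreatest (P n) n, x ∈ A j n) ∈ _
            from mem_iInter.2 fun k => hA k ▸ ?_)
          obtain ⟨ω, hω⟩ := c k
          filter_upwards [(eventually_all_finite (finite_le_nat k)).2 fun j (hj : j ≤ k) =>
            (hA j).ge (a hj hω), hyperfilter_le_cofinite (Nat.cofinite_eq_atTop ▸ eventually_ge_atTop k)] with n p q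
          exact Classical.epsilon_spec (Nat.findGreatest_spec (P := P n) q ⟨_, p⟩) k (Nat.le_findGreatest q ⟨_, p⟩)
        refine tendsto_const_nhds.congr' ((eventually_ge_atTop k).mono fun j hj => ?_)
        beta_reduce
        rw [subset_eq_empty (a hj) hk, addContent_empty]) (f := f)
  have e : ∀ A, (∀ n, MeasurableSet (A n)) → Tendsto (fun n => μ n (A n)) (hyperfilter ℕ)
      (𝓝 (c.measure ring.isSetSemiring le_rfl s (br A))) := fun A a =>
    (c.measure_eq ring.isSetSemiring rfl s ⟨A, a, rfl⟩).symm ▸ hm A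
  exact ⟨_, ⟨br_univ (Ω := Ω) ▸ tendsto_nhds_unique (e _ fun _ => .univ) (by simp)⟩, e⟩

theorem stp {x : ℝ≥0∞} (h : x ≤ 1) (k : ℕ) :
    ∑ j ∈ Finset.range (k + 1), (if (j : ℝ≥0∞) < (k + 1) * x then (k + 1 : ℝ≥0∞)⁻¹ else 0) ∈ Icc x (x + (k + 1 : ℝ≥0∞)⁻¹) := by
  lift x to ℝ≥0 using (h.trans_lt ENNReal.one_lt_top).ne
  have e : (Finset.range (k + 1)).filter (fun j : ℕ => (j : ℝ≥0∞) < (k + 1) * x) = Finset.range ⌈(k + 1) * x⌉₊ := by
    ext j
    have : ⌈(k + 1) * x⌉₊ ≤ k + 1 := Nat.ceil_le.2 (by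
      simpa using mul_le_of_le_one_right (a := (k + 1 : ℝ≥0)) zero_le (ENNReal.coe_le_one_iff.1 h))
    rw [Finset.mem_filter, Finset.mem_range, Finset.mem_range, show (j : ℝ≥0∞) < (k + 1) * x ↔ j < ⌈(k + 1) * x⌉₊ by
      rw [Nat.lt_ceil]; norm_cast]
    omega
  rw [← Finset.sum_filter, e, Finset.sum_const, Finset.card_range, nsmul_eq_mul, ← div_eq_mul_inv, mem_Icc,
    ENNReal.le_div_iff_mul_le (by simp) (by simp), ENNReal.div_le_iff (by simp) (by simp), add_mul (x : ℝ≥0∞),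
    ENNReal.inv_mul_cancel (by simp) (by simp), mul_comm (x : ℝ≥0∞)]
  exact ⟨mod_cast Nat.le_ceil _, mod_cast (Nat.ceil_lt_add_one zero_le).le⟩

omit [∀ n, Nonempty (Ω n)] in
theorem mlim {f : ∀ n, Ω n → ℝ≥0∞} (m : ∀ n, Measurable (f n)) {g : Ul Ω → ℝ≥0∞}
    (t : ∀ ω, Tendsto (fun n => f n (ω n)) (hyperfilter ℕ) (𝓝 (g ω))) : Measurable g := by
  refine measurable_of_Ioi fun a => ?_
  convert MeasurableSet.iUnion fun q : {q : ℚ // a < Real.toNNReal q} =>
    mbr fun n => m n (measurableSet_Ioi (a := (Real.toNNReal q.1 : ℝ≥0∞)))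
  ext ω
  refine ⟨fun h => ?_, fun h => ?_⟩
  · obtain ⟨q, -, a, b⟩ := ENNReal.lt_iff_exists_rat_btwn.1 h
    exact mem_iUnion.2 ⟨⟨q, a⟩, (t ω).eventually (lt_mem_nhds b)⟩
  obtain ⟨q, h⟩ := mem_iUnion.1 h
  exact q.2.trans_le (ge_of_tendsto (t ω) (h.mono fun _ k => le_of_lt k))

omit [∀ n, Nonempty (Ω n)] in
theorem tI {μ : ∀ n, Measure (Ω n)} [∀ n, IsProbabilityMeasure (μ n)] {L : Measure (Ul Ω)} [IsProbabilityMeasure L]
    (hL : ∀ A, (∀ n, MeasurableSet (A n)) → Tendsto (fun n => μ n (A n)) (hyperfilter ℕ) (𝓝 (L (br A))))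
    {f : ∀ n, Ω n → ℝ≥0∞} (m : ∀ n, Measurable (f n)) (b : ∀ n ω, f n ω ≤ 1) {g : Ul Ω → ℝ≥0∞}
    (t : ∀ ω, Tendsto (fun n => f n (ω n)) (hyperfilter ℕ) (𝓝 (g ω))) :
    Tendsto (fun n => ∫⁻ ω, f n ω ∂μ n) (hyperfilter ℕ) (𝓝 (∫⁻ ω, g ω ∂L)) := by
  obtain ⟨l, a⟩ : ∃ l, Tendsto (fun n => ∫⁻ ω, f n ω ∂μ n) (hyperfilter ℕ) (𝓝 l) := ⟨_, tend _⟩
  have k : ∀ k : ℕ, ∃ s, s ∈ Icc l (l + (k + 1 : ℝ≥0∞)⁻¹) ∧ s ∈ Icc (∫⁻ ω, g ω ∂L) (∫⁻ ω, g ω ∂L + (k + 1 : ℝ≥0∞)⁻¹) := by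
    intro k
    let A : ℕ → ∀ n, Set (Ω n) := fun j n => {ω | (j : ℝ≥0∞) < (k + 1) * f n ω}
    have mA : ∀ j n, MeasurableSet (A j n) := fun j n => measurableSet_lt measurable_const ((m n).const_mul _)
    have u : ∀ {α : Type} [MeasurableSpace α] (ν : Measure α) [IsProbabilityMeasure ν] (B : ℕ → Set α) (h : α → ℝ≥0∞),
        (∀ j, MeasurableSet (B j)) → (∀ ω, ∑ j ∈ Finset.range (k + 1), (B j).indicator (fun _ => (k + 1 : ℝ≥0∞)⁻¹) ω ∈
          Icc (h ω) (h ω + (k + 1 : ℝ≥0∞)⁻¹)) → ∑ j ∈ Finset.range (k + 1), (k + 1 : ℝ≥0∞)⁻¹ * ν (B j) ∈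
            Icc (∫⁻ ω, h ω ∂ν) (∫⁻ ω, h ω ∂ν + (k + 1 : ℝ≥0∞)⁻¹) := fun ν _ B h m b => by
      simp only [← lintegral_indicator_const (m _)]
      rw [← lintegral_finsetSum _ fun j _ => measurable_const.indicator (m j)]
      exact ⟨lintegral_mono fun ω => (b ω).1, (lintegral_mono fun ω => (b ω).2).trans_eq (by
        rw [lintegral_add_right _ measurable_const]; simp)⟩
    have v := fun n => u (μ n) (A · n) (f n) (mA · n) fun ω => by simpa [indicator, A] using stp (b n ω) k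
    have w := tendsto_finsetSum (Finset.range (k + 1)) fun j _ =>
      ENNReal.Tendsto.const_mul (a := (k + 1 : ℝ≥0∞)⁻¹) (hL _ (mA j)) (.inr (by simp))
    refine ⟨_, ⟨le_of_tendsto_of_tendsto' a w fun n => (v n).1,
      le_of_tendsto_of_tendsto' w (a.add_const _) fun n => (v n).2⟩, u L _ g (fun j => mbr (mA j)) fun ω => ?_⟩
    have w : Tendsto (fun n => ∑ j ∈ Finset.range (k + 1), if (j : ℝ≥0∞) < (k + 1) * f n (ω n) then (k + 1 : ℝ≥0∞)⁻¹ else 0)
        (hyperfilter ℕ) (𝓝 (∑ j ∈ Finset.range (k + 1), (br (A j)).indicator (fun _ => (k + 1 : ℝ≥0∞)⁻¹) ω)) :=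
      tendsto_finsetSum _ fun j _ => tendsto_const_nhds.congr' (by
        by_cases c : ω ∈ br (A j)
        · exact c.mono fun n h => (indicator_of_mem c _).trans (if_pos h).symm
        exact (Ultrafilter.eventually_not.2 c).mono fun n h => (indicator_of_notMem c _).trans (if_neg h).symm)
    exact ⟨le_of_tendsto_of_tendsto' (t ω) w fun n => (stp (b n _) k).1,
      le_of_tendsto_of_tendsto' w ((t ω).add_const _) fun n => (stp (b n _) k).2⟩
  have z : ∀ x y : ℝ≥0∞, (∀ k : ℕ, x ≤ y + (k + 1 : ℝ≥0∞)⁻¹) → x ≤ y := fun x y h => by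
    simpa using ge_of_tendsto' ((ENNReal.tendsto_inv_nat_nhds_zero.comp (tendsto_add_atTop_nat 1)).const_add y)
      fun k => by simpa using h k
  rwa [← (z _ _ fun j => (k j).elim fun s h => h.1.1.trans h.2.2).antisymm
    (z _ _ fun j => (k j).elim fun s h => h.2.1.trans h.1.2)]

end

end Pool.Agent.H.MP_5090e2_pr
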