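import Mathlib

set_option autoImplicit false

namespace Pool.Agent.H.MP_5090e2_pr

open Set Filter Topology MeasureTheory
open scoped ENNReal NNReal

noncomputable section

/-- nonincreasing functions with values in the unit interval -/
def A : Type := {f : ℝ≥0 → ℝ // Antitone f ∧ ∀ t, f t ∈ Icc 0 1}

/-- agreement at common continuity points -/
def R (f g : A) : Prop := ∀ t, ContinuousAt f.1 t → ContinuousAt g.1 t → f.1 t = g.1 t

/-- the quotient -/
def M : Type := Quot R

/-- convergence at continuity points of the limit -/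
def Conv (u : ℕ → A) (f : A) : Prop := ∀ t, ContinuousAt f.1 t → Tendsto (fun n => (u n).1 t) atTop (𝓝 (f.1 t))

instance : TopologicalSpace M :=
  .generateFrom {s | ∀ u f, Conv u f → Quot.mk R f ∈ s → ∀ᶠ n in atTop, Quot.mk R (u n) ∈ s}

instance : MeasurableSpace M := borel M

instance : BorelSpace M := ⟨rfl⟩

theorem UL {α : Type} (U : Ultrafilter α) (u : α → A) (g : A) (h : ∀ t, Tendsto (fun a => (u a).1 t) U (𝓝 (g.1 t))) :
    Tendsto (β := M) (fun a => Quot.mk R (u a)) U (𝓝 (Quot.mk R g)) := by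
  refine TopologicalSpace.tendsto_nhds_generateFrom_iff.2 fun s hs k => by_contra fun c => ?_
  obtain ⟨D, c1, c2, c3, -⟩ := exists_countable_dense_bot_top ℝ≥0
  have := c1.to_subtype
  let F := comap (fun a (q : D) => (u a).1 q) (𝓝 fun q => g.1 q) ⊓ 𝓟 {a | Quot.mk R (u a) ∉ s}
  have : F.NeBot := neBot_of_le (f := U) (le_inf (tendsto_iff_comap.1 (tendsto_pi_nhds.2 fun q => h q))
    (le_principal_iff.2 (Ultrafilter.compl_mem_iff_notMem.2 c)))
  obtain ⟨φ, hφ⟩ := exists_seq_tendsto F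
  obtain ⟨a, b⟩ := tendsto_inf.1 hφ
  have a := fun q (m : q ∈ D) => tendsto_pi_nhds.1 (tendsto_comap_iff.1 a) ⟨q, m⟩
  refine ((hs (u ∘ φ) g (fun t ht => tendsto_order.2 ⟨fun y hy => ?_, fun y hy => ?_⟩) k).and
    (tendsto_principal.1 b)).exists.elim fun _ h => h.2 h.1
  · obtain ⟨r, p, v⟩ := exists_Ico_subset_of_mem_nhds (ht.eventually (lt_mem_nhds hy)) (exists_gt t)
    obtain ⟨q, m, z⟩ := c2.exists_between p
    exact ((a q m).eventually (lt_mem_nhds (v ⟨z.1.le, z.2⟩))).mono fun n w => w.trans_le ((u _).2.1 z.1.le)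
  obtain ⟨q, m, z, v⟩ : ∃ q ∈ D, q ≤ t ∧ g.1 q < y := by
    rcases eq_zero_or_pos t with rfl | p
    · exact ⟨0, c3 0 fun _ => zero_le, le_rfl, hy⟩
    obtain ⟨r, p, v⟩ := exists_Ioc_subset_of_mem_nhds (ht.eventually (gt_mem_nhds hy)) ⟨0, p⟩
    obtain ⟨q, m, z⟩ := c2.exists_between p
    exact ⟨q, m, z.2.le, v ⟨z.1, z.2.le⟩⟩
  exact ((a q m).eventually (gt_mem_nhds v)).mono fun n w => ((u _).2.1 z).trans_lt w

theorem exl {α : Type} (U : Ultrafilter α) (u : α → A) : ∃ g : A, ∀ t, Tendsto (fun a => (u a).1 t) U (𝓝 (g.1 t)) := by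
  choose g a b using fun t => isCompact_Icc.ultrafilter_le_nhds (U.map fun a => (u a).1 t)
    (le_principal_iff.2 (mem_map.2 (univ_mem' fun a => (u a).2.2 t)))
  exact ⟨⟨g, fun s t h => le_of_tendsto_of_tendsto' (b t) (b s) fun a => (u a).2.1 h, a⟩, b⟩

instance : CompactSpace M := ⟨isCompact_iff_ultrafilter_le_nhds.2 fun U _ => (exl U Quot.out).elim fun g h =>
  ⟨_, trivial, tendsto_id'.1 ((UL U _ g h).congr Quot.out_eq)⟩⟩

theorem aec (f : A) : ∀ᵐ s : ℝ ∂volume.toFinite, ContinuousAt f.1 ‖s‖₊ := by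
  refine toFinite_absolutelyContinuous _ (Countable.measure_zero (((f.2.1.countable_not_continuousAt.image
    (↑)).union (f.2.1.countable_not_continuousAt.image fun t => -(t : ℝ))).mono fun s h => ?_) _)
  rcases abs_choice s with e | e
  · exact .inl ⟨_, h, e⟩
  exact .inr ⟨_, h, neg_eq_iff_eq_neg.2 e⟩

theorem itg (f : A) : Integrable (fun s : ℝ => f.1 ‖s‖₊) volume.toFinite :=
  .of_bound (f.2.1.measurable.comp measurable_nnnorm).aestronglyMeasurable 1
    (.of_forall fun _ => abs_le.2 ⟨neg_one_lt_zero.le.trans (f.2.2 _).1, (f.2.2 _).2⟩)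

/-- the embedding into an integrable class -/
def io : M → ℝ →₁[volume.toFinite] ℝ := Quot.lift (fun f => (itg f).toL1 _) fun f g h =>
  (Integrable.toL1_eq_toL1_iff _ _ _ _).2 (((aec f).and (aec g)).mono fun _ k => h _ k.1 k.2)

theorem emb : IsEmbedding io := by
  refine (Continuous.isClosedEmbedding (f := io) (continuous_def.2 fun s hs =>
    TopologicalSpace.GenerateOpen.basic _ fun u f h k => ?_) ?_).isEmbedding
  · refine Tendsto.eventually (f := fun n => io (Quot.mk R (u n))) ?_ (hs.mem_nhds k)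
    rw [tendsto_iff_dist_tendsto_zero]
    have := tendsto_integral_of_dominated_convergence (F := fun n (s : ℝ) => dist ((u n).1 ‖s‖₊) (f.1 ‖s‖₊))
      (f := fun _ => 0) (μ := volume.toFinite) (fun _ => 1) (fun n => (itg _).1.dist (itg _).1) (integrable_const _)
      (fun n => .of_forall fun s => by
        simpa using Real.dist_le_of_mem_Icc_01 ((u n).2.2 _) (f.2.2 _))
      ((aec f).mono fun s k => tendsto_iff_dist_tendsto_zero.1 (h _ k))
    rw [integral_zero] at this
    refine this.congr fun n => ((L1.dist_eq_integral_dist _ _).trans (integral_congr_ae ?_)).symm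
    filter_upwards [(itg (u n)).coeFn_toL1, (itg f).coeFn_toL1] with s a b
    exact a ▸ b ▸ rfl
  rintro ⟨f⟩ ⟨g⟩ h
  refine Quot.sound fun t a b => ?_
  have e := Measure.dense_of_ae (μ := volume) (absolutelyContinuous_toFinite _
    ((Integrable.toL1_eq_toL1_iff _ _ (itg f) (itg g)).1 h))
  have c : Tendsto (fun s : ℝ => ‖s‖₊) (𝓝 t) (𝓝 t) := continuous_nnnorm.tendsto' _ _ (by simp)
  exact tendsto_nhds_unique_of_frequently_eq (a.tendsto.comp c) (b.tendsto.comp c) (mem_closure_iff_frequently.1 (e t))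

instance : TopologicalSpace.MetrizableSpace M := emb.metrizableSpace

end

end Pool.Agent.H.MP_5090e2_pr
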