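import Pool.Agent.H.MP_5090e2_pr.A
import Pool.Agent.H.MP_5090e2_pr.C

set_option autoImplicit false

namespace Pool.Agent.H.MP_5090e2_pr

open Set Filter Topology MeasureTheory MeasurableSpace ProbabilityTheory
open scoped ENNReal NNReal

noncomputable section

/-- total variation distance -/
def tv {E : Type} [MeasurableSpace E] (μ ν : Measure E) : ℝ :=
  sSup {r | ∃ s, MeasurableSet s ∧ r = |μ.real s - ν.real s|}

/-- Markov property at a time -/
def Mp {E : Type} [MeasurableSpace E] (P : Kernel E (ℝ≥0 → E)) (x : E) (t : ℝ≥0) : Prop :=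
  ∀ (a : Set (Iic t → E)) (b : Set (ℝ≥0 → E)), MeasurableSet a → MeasurableSet b →
    P x {ω | (Iic t).domRestrict ω ∈ a ∧ (fun s => ω (t + s)) ∈ b} = ∫⁻ ω in {ω | (Iic t).domRestrict ω ∈ a}, P (ω t) b ∂P x

/-- Markov family with stationary law -/
def Mk {E : Type} [MeasurableSpace E] (P : Kernel E (ℝ≥0 → E)) (π : Measure E) : Prop :=
  IsMarkovKernel P ∧ (∀ x, (P x).map (· 0) = .dirac x) ∧ (∀ x t, Mp P x t) ∧ ∀ t, (P ∘ₘ π).map (· t) = π

/-- the profile -/
def Prof {E : Type} [MeasurableSpace E] (P : Kernel E (ℝ≥0 → E)) (π : Measure E) (F : E → M) : Prop :=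
  ∀ x, ∃ f : A, Quot.mk R f = F x ∧ ∀ t, f.1 t = tv ((P x).map (· t)) π

variable {Ω Ω' : ℕ → Type} [∀ n, MeasurableSpace (Ω n)] [∀ n, MeasurableSpace (Ω' n)]

/-- limit property -/
def Lo (μ : ∀ n, Measure (Ω n)) (L : Measure (Ul Ω)) : Prop :=
  ∀ A, (∀ n, MeasurableSet (A n)) → Tendsto (fun n => μ n (A n)) (hyperfilter ℕ) (𝓝 (L (br A)))

theorem Lo.uniq {μ : ∀ n, Measure (Ω n)} {L N : Measure (Ul Ω)} [IsFiniteMeasure L] (a : Lo μ L) (b : Lo μ N) :
    L = N :=
  ext_of_generate_finite _ rfl ring.isSetSemiring.isPiSystem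
    (fun _ ⟨A, m, e⟩ => e ▸ tendsto_nhds_unique (a A m) (b A m))
    (br_univ (Ω := Ω) ▸ tendsto_nhds_unique (a _ fun _ => .univ) (b _ fun _ => .univ))

theorem mmap {f : ∀ n, Ω n → Ω' n} (m : ∀ n, Measurable (f n)) :
    Measurable (β := Ul Ω') fun (ω : Ul Ω) n => f n (ω n) :=
  measurable_generateFrom fun _ ⟨_, a, e⟩ => e ▸ mbr fun n => m n (a n)

theorem Lo.map {μ : ∀ n, Measure (Ω n)} {L : Measure (Ul Ω)} (a : Lo μ L) {f : ∀ n, Ω n → Ω' n}
    (m : ∀ n, Measurable (f n)) : Lo (fun n => (μ n).map (f n)) (L.map (β := Ul Ω') fun ω n => f n (ω n)) := fun A h => by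
  simp only [Measure.map_apply (m _) (h _), Measure.map_apply (mmap m) (mbr h)]
  exact a _ fun n => m n (h n)

theorem ind {x : Ul Ω} {A : ∀ n, Set (Ω n)} {f : ∀ n, Ω n → ℝ≥0∞} {g : Ul Ω → ℝ≥0∞}
    (h : Tendsto (fun n => f n (x n)) (hyperfilter ℕ) (𝓝 (g x))) :
    Tendsto (fun n => (A n).indicator (f n) (x n)) (hyperfilter ℕ) (𝓝 ((br A).indicator g x)) := by
  by_cases c : x ∈ br A
  · exact indicator_of_mem c g ▸ h.congr' (c.mono fun n h => (indicator_of_mem h _).symm)
  exact indicator_of_notMem c g ▸ tendsto_const_nhds.congr'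
    ((Ultrafilter.eventually_not.2 c).mono fun n h => (indicator_of_notMem h _).symm)

theorem Lo.dirac (x : Ul Ω) : Lo (fun n => .dirac (x n)) (.dirac x) := fun A h => by
  simp only [Measure.dirac_apply' _ (h _), Measure.dirac_apply' _ (mbr h)]
  exact ind tendsto_const_nhds

theorem tvb {E : Type} [MeasurableSpace E] (μ ν : Measure E) [IsProbabilityMeasure μ] [IsProbabilityMeasure ν] :
    IsLUB {r | ∃ s, MeasurableSet s ∧ r = |μ.real s - ν.real s|} (tv μ ν) :=
  isLUB_csSup ⟨_, ∅, .empty, rfl⟩ ⟨1, fun _ ⟨_, _, e⟩ => e ▸ Real.dist_le_of_mem_Icc_01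
    ⟨measureReal_nonneg, measureReal_le_one⟩ ⟨measureReal_nonneg, measureReal_le_one⟩⟩

theorem Lo.tv {μ ν : ∀ n, Measure (Ω n)} {L N : Measure (Ul Ω)} [∀ n, IsProbabilityMeasure (μ n)]
    [∀ n, IsProbabilityMeasure (ν n)] [IsProbabilityMeasure L] [IsProbabilityMeasure N] (a : Lo μ L) (b : Lo ν N)
    {l : ℝ} (h : Tendsto (fun n => tv (μ n) (ν n)) (hyperfilter ℕ) (𝓝 l)) : l = tv L N := by
  have k := fun A (m : ∀ n, MeasurableSet (A n)) =>
    (((ENNReal.tendsto_toReal (measure_ne_top _ _)).comp (a A m)).sub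
      ((ENNReal.tendsto_toReal (measure_ne_top _ _)).comp (b A m))).abs
  refine le_antisymm (le_of_forall_pos_le_add fun ε e => ?_) ((tvb L N).2 ?_)
  · choose r p q _ using fun n => (tvb (μ n) (ν n)).exists_between (sub_lt_self _ e)
    choose A m p using p
    exact sub_le_iff_le_add.1 ((le_of_tendsto_of_tendsto' (h.sub_const ε) (k A m) fun n =>
      (q n).le.trans_eq (p n)).trans ((tvb L N).1 ⟨_, mbr m, rfl⟩))
  rintro _ ⟨s, m, rfl⟩
  refine le_of_forall_pos_le_add fun ε e => ?_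
  obtain ⟨_, ⟨A, m', rfl⟩, z⟩ := exists_measure_symmDiff_lt_of_generateFrom_isSetRing (μ := L + N) ring
    ⟨{univ}, countable_singleton _, singleton_subset_iff.2 ⟨_, fun _ => .univ, br_univ⟩, by simp⟩ rfl m
    (ENNReal.ofReal_pos.2 e)
  have u := abs_le.1 (abs_measureReal_sub_le_measureReal_symmDiff (μ := L) (mbr m').nullMeasurableSet m.nullMeasurableSet)
  have v := abs_le.1 (abs_measureReal_sub_le_measureReal_symmDiff (μ := N) (mbr m').nullMeasurableSet m.nullMeasurableSet)
  have w : |L.real (br A) - N.real (br A)| ≤ l := le_of_tendsto_of_tendsto' (k A m') h fun n =>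
    (tvb (μ n) (ν n)).1 ⟨_, m' n, rfl⟩
  have y := measureReal_add_apply (μ₁ := L) (μ₂ := N) (s := symmDiff (br A) s)
  have x : (L + N).real _ < ε := ENNReal.toReal_lt_of_lt_ofReal z
  rw [abs_le] at w ⊢
  constructor <;> linarith [u.1, u.2, v.1, v.2, w.1, w.2]

/-- exchange of coordinates -/
def sw {ι : Type} (ω : Ul fun n => ι → Ω n) : ι → Ul Ω := fun t n => ω n t

theorem msw {ι : Type} : Measurable (sw (Ω := Ω) (ι := ι)) :=
  measurable_pi_lambda _ fun t => mmap fun _ => measurable_pi_apply t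

/-- internal cylinders -/
def Cy (Ω : ℕ → Type) [∀ n, MeasurableSpace (Ω n)] (ι : Type) : Set (Set (ι → Ul Ω)) :=
  {s | MeasurableSet s ∧ sw ⁻¹' s ∈ Int fun n => ι → Ω n}

theorem cy1 {ι : Type} : IsPiSystem (Cy Ω ι) := fun _ a _ b _ => ⟨a.1.inter b.1, ring.inter_mem a.2 b.2⟩

theorem cy2 {ι : Type} : generateFrom (Cy Ω ι) = MeasurableSpace.pi :=
  (generateFrom_le fun _ h => h.1).antisymm (iSup_le fun t => measurable_iff_comap_le.1
    (@measurable_generateFrom _ _ (generateFrom _) _ _ fun _ ⟨A, a, e⟩ => measurableSet_generateFrom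
      ⟨measurable_pi_apply t (e ▸ mbr a), fun n => (· t) ⁻¹' A n, fun n => measurable_pi_apply t (a n), e ▸ rfl⟩))

theorem cy3 {ι : Type} : IsCountablySpanning (Cy Ω ι) :=
  ⟨fun _ => univ, fun _ => ⟨.univ, _, fun _ => .univ, br_univ⟩, iUnion_const _⟩

theorem mp {E : Type} [MeasurableSpace E] (P : Kernel E (ℝ≥0 → E)) [IsMarkovKernel P] (x : E) (t : ℝ≥0)
    {C : Set (Set (Iic t → E))} {D : Set (Set (ℝ≥0 → E))} (c : generateFrom C = MeasurableSpace.pi)
    (d : generateFrom D = MeasurableSpace.pi) (c1 : IsPiSystem C) (d1 : IsPiSystem D) (c2 : IsCountablySpanning C)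
    (d2 : IsCountablySpanning D) (h : ∀ a ∈ C, ∀ b ∈ D, P x {ω | (Iic t).domRestrict ω ∈ a ∧ (fun s => ω (t + s)) ∈ b} =
      ∫⁻ ω in {ω | (Iic t).domRestrict ω ∈ a}, P (ω t) b ∂P x) : Mp P x t := by
  have m : Measurable fun ω : ℝ≥0 → E => ((Iic t).domRestrict ω, fun s => ω (t + s)) := by fun_prop
  have m' : Measurable fun ω : Iic t → E => ω ⟨t, self_mem_Iic⟩ := measurable_pi_apply _
  have := Measure.isProbabilityMeasure_map (μ := P x) m.aemeasurable
  have := Measure.isProbabilityMeasure_map (μ := P x) m.fst.aemeasurable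
  have k := fun a b (p : MeasurableSet a) (q : MeasurableSet b) =>
    (Measure.compProd_apply_prod (μ := (P x).map _) (κ := P.comap _ m') p q).trans
      (setLIntegral_map p ((P.comap _ m').measurable_coe q) m.fst)
  have e := ext_of_generate_finite (μ := (P x).map _) (ν := (P x).map _ ⊗ₘ P.comap _ m') _
    (generateFrom_eq_prod c d c2 d2).symm (c1.prod d1) (by
      rintro _ ⟨a, p, b, q, rfl⟩
      have p' : MeasurableSet a := c.le _ (measurableSet_generateFrom p)
      have q' : MeasurableSet b := d.le _ (measurableSet_generateFrom q)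
      exact ((Measure.map_apply m (p'.prod q')).trans (h a p b q)).trans (k a b p' q').symm) (by simp)
  exact fun a b p q => ((Measure.map_apply m (p.prod q)).symm.trans (DFunLike.congr_fun e _)).trans (k a b p q)

theorem main (P : ∀ n, Kernel (Ω n) (ℝ≥0 → Ω n)) (π : ∀ n, ProbabilityMeasure (Ω n)) (h : ∀ n, Mk (P n) (π n))
    (F : ∀ n, Ω n → M) (mF : ∀ n, Measurable (F n)) (hF : ∀ n, Prof (P n) (π n) (F n)) (ν : ProbabilityMeasure M)
    (hν : Tendsto (fun n => (π n).map (mF n).aemeasurable) atTop (𝓝 ν)) :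
    ∃ (E : Type) (_ : MeasurableSpace E) (Q : Kernel E (ℝ≥0 → E)) (ρ : ProbabilityMeasure E) (G : E → M)
      (mG : Measurable G), Mk Q ρ ∧ Prof Q ρ G ∧ ρ.map mG.aemeasurable = ν := by
  have := fun n => (h n).1
  have := fun n => nonempty_of_isProbabilityMeasure (π n : Measure (Ω n))
  choose L i hL using fun x : Ul Ω => ex fun n => P n (x n)
  obtain ⟨ρ, j, hρ⟩ := ex fun n => (π n : Measure (Ω n))
  have := fun x => Measure.isProbabilityMeasure_map (μ := L x) msw.aemeasurable
  have c : ∀ x s B, MeasurableSet s → (∀ n, MeasurableSet (B n)) → br B = sw ⁻¹' s →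
      Tendsto (fun n => P n (x n) (B n)) (hyperfilter ℕ) (𝓝 ((L x).map sw s)) := fun x s B a b e => by
    rw [Measure.map_apply msw a, ← e]
    exact hL x B b
  let Q : Kernel (Ul Ω) (ℝ≥0 → Ul Ω) := ⟨fun x => (L x).map sw, .measure_of_isPiSystem_of_isProbabilityMeasure
    cy2.symm cy1 fun s ⟨a, B, b, e⟩ => mlim (fun n => (P n).measurable_coe (b n)) fun x => c x s B a b e⟩
  have : IsMarkovKernel Q := ⟨this⟩
  have q : ∀ x t, Lo (fun n => (P n (x n)).map (· t)) ((Q x).map (· t)) := fun x t =>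
    (Measure.map_map (μ := L x) (measurable_pi_apply t) msw).symm ▸ Lo.map (hL x) fun _ => measurable_pi_apply t
  have r := fun x t => Measure.isProbabilityMeasure_map (μ := Q x) (measurable_pi_apply t).aemeasurable
  have r' := fun n x t => Measure.isProbabilityMeasure_map (μ := P n x) (measurable_pi_apply t).aemeasurable
  choose u u1 u2 using hF
  choose g hg using fun x : Ul Ω => exl (hyperfilter ℕ) fun n => u n (x n)
  have w : ∀ x : Ul Ω, Tendsto (fun n => F n (x n)) (hyperfilter ℕ) (𝓝 (Quot.mk R (g x))) := fun x =>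
    (UL _ _ _ (hg x)).congr fun n => u1 n _
  have w' : ∀ ψ : M → ℝ≥0∞, Continuous ψ → Measurable fun x => ψ (Quot.mk R (g x)) := fun ψ a =>
    mlim (fun n => a.measurable.comp (mF n)) fun x => (a.tendsto _).comp (w x)
  have mG : Measurable (β := M) fun x => Quot.mk R (g x) := measurable_of_isClosed fun s a => by
    letI := TopologicalSpace.metrizableSpaceMetric M
    convert w' _ (Metric.continuous_infEDist (s := s)) (measurableSet_singleton 0) using 1
    exact Set.ext fun _ => Metric.mem_iff_infEDist_zero_of_closed a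
  refine ⟨_, _, Q, ⟨ρ, j⟩, _, mG, ⟨this, fun x => (q x 0).uniq (by simpa only [(h _).2.1] using Lo.dirac x),
    fun x t => mp Q x t cy2 cy2 cy1 cy1 cy3 cy3 ?_, fun t => (Lo.uniq hρ fun B b => ?_).symm⟩,
    fun x => ⟨_, rfl, fun t => (q x t).tv hρ ((hg x t).congr fun n => u2 n _ t)⟩,
    tendsto_nhds_unique (ProbabilityMeasure.tendsto_iff_forall_lintegral_tendsto.2 fun φ => ?_)
      (hν.mono_left (Nat.cofinite_eq_atTop ▸ hyperfilter_le_cofinite))⟩
  · rintro a ⟨a1, B, a2, a3⟩ b ⟨b1, D, b2, b3⟩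
    have m : ∀ {E : Type} [MeasurableSpace E], Measurable fun ω : ℝ≥0 → E => (Iic t).domRestrict ω := by fun_prop
    have m' : ∀ {E : Type} [MeasurableSpace E], Measurable fun (ω : ℝ≥0 → E) s => ω (t + s) := by fun_prop
    have e : br (fun n => {ω : ℝ≥0 → Ω n | (Iic t).domRestrict ω ∈ B n}) = sw ⁻¹' {ω | (Iic t).domRestrict ω ∈ a} :=
      Set.ext fun ω => Set.ext_iff.1 a3 fun n => (Iic t).domRestrict (ω n)
    refine tendsto_nhds_unique (c x _ (fun n => {ω | (Iic t).domRestrict ω ∈ B n} ∩ {ω | (fun s => ω (t + s)) ∈ D n})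
      ((m a1).inter (m' b1)) (fun n => (m (a2 n)).inter (m' (b2 n))) ((br_inter _ _).trans (congrArg₂ _ e
        (Set.ext fun ω => Set.ext_iff.1 b3 fun n s => ω n (t + s))))) ?_
    have := tI (hL x) (fun n => (((P n).measurable_coe (b2 n)).comp (measurable_pi_apply t)).indicator (m (a2 n)))
      (fun n ω => indicator_apply_le' (fun _ => prob_le_one) fun _ => zero_le)
      fun ω => ind (g := fun ω => Q (sw ω t) b) (c (sw ω t) b D b1 b2 b3)
    rw [lintegral_indicator (mbr fun n => m (a2 n))] at this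
    refine (setLIntegral_map (μ := L x) (m a1) ((Q.measurable_coe b1).comp (measurable_pi_apply t)) msw).symm ▸
      e ▸ this.congr fun n => ?_
    exact (lintegral_indicator (m (a2 n)) _).trans ((h n).2.2.1 _ t _ _ (a2 n) (b2 n)).symm
  · have z : ∀ {E : Type} [MeasurableSpace E] (P : Kernel E (ℝ≥0 → E)) (π : Measure E) (s : Set E), MeasurableSet s →
        (P ∘ₘ π).map (· t) s = ∫⁻ x, (P x).map (· t) s ∂π := fun P π s a => by
      simp only [Measure.map_apply (α := ℝ≥0 → _) (measurable_pi_apply t) a]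
      exact Measure.bind_apply (measurable_pi_apply t a) P.aemeasurable
    rw [z _ _ _ (mbr b)]
    refine (tI hρ (f := fun n x => (P n x).map (· t) (B n)) (fun n => ?_) (fun _ _ => prob_le_one) fun x => q x t B b).congr fun n => ?_
    · simp only [Measure.map_apply (α := ℝ≥0 → _) (measurable_pi_apply t) (b n)]
      exact (P n).measurable_coe (measurable_pi_apply t (b n))
    rw [← z _ _ _ (b n), (h n).2.2.2]
  obtain ⟨C, hC⟩ := (isCompact_range φ.continuous).bddAbove
  have a : Continuous fun m : M => (φ m : ℝ≥0∞) := ENNReal.continuous_coe.comp φ.continuous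
  have b : Continuous fun m : M => (C + 1 : ℝ≥0∞)⁻¹ * φ m := (ENNReal.continuous_const_mul (by simp)).comp a
  have := ENNReal.Tendsto.const_mul (a := C + 1) (tI hρ (fun n => b.measurable.comp (mF n)) (fun n x => by
    refine (ENNReal.inv_mul_le_iff (by simp) (by simp)).2 ?_
    exact_mod_cast (hC ⟨_, rfl⟩).trans (by simp)) fun x => (b.tendsto _).comp (w x)) (.inr (by simp))
  simp only [Function.comp, ← lintegral_const_mul' (C + 1 : ℝ≥0∞) _ (by simp),
    ENNReal.mul_inv_cancel_left (a := C + 1) (by simp) (by simp)] at this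
  simpa only [ProbabilityMeasure.toMeasure_map, lintegral_map a.measurable (mF _), lintegral_map a.measurable mG]

end

end Pool.Agent.H.MP_5090e2_pr
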